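import Pool.Agent.Q204.TY.Dim

set_option autoImplicit false

/-!
# A finite-dimensional space of strong computable type which properly contains a copy of itself
-/

namespace Pool.Agent.Results.MP_975a4b_lc.FiniteDimProperCopy

open Q204.TY

/-- `K ⊆ Q` is semicomputable relative to `O`: the set of (codes of) finite families of rational
open balls whose union covers `K` is c.e. relative to `O`. -/
def SemiComp (O : Set ℕ) (K : Set Cube) : Prop :=
  CEIn O {L : List Bl | K ⊆ ⋃ b ∈ L, rball b}

/-- `K ⊆ Q` is computable relative to `O`: it is semicomputable relative to `O` and the set of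
(codes of) rational open balls which meet `K` is c.e. relative to `O`. -/
def Comp (O : Set ℕ) (K : Set Cube) : Prop :=
  SemiComp O K ∧ CEIn O {b : Bl | (rball b ∩ K).Nonempty}

/-- `X` has strong computable type: for every oracle `O` and every copy `Y` of `X` in the Hilbert
cube, if `Y` is semicomputable relative to `O` then `Y` is computable relative to `O`. -/
def StrongComputableType (X : Type) [TopologicalSpace X] : Prop :=
  ∀ (O : Set ℕ) (Y : Set Cube), Nonempty (X ≃ₜ Y) → SemiComp O Y → Comp O Y

/-- `X` has covering dimension at most `d`: every finite open cover has a finite open refinement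
which covers `X` and in which every point lies in at most `d + 1` members. -/
def CoveringDimLE (X : Type) [TopologicalSpace X] (d : ℕ) : Prop :=
  ∀ U : Set (Set X), U.Finite → (∀ u ∈ U, IsOpen u) → ⋃₀ U = Set.univ →
    ∃ V : Set (Set X), V.Finite ∧ (∀ v ∈ V, IsOpen v) ∧ ⋃₀ V = Set.univ ∧
      (∀ v ∈ V, ∃ u ∈ U, v ⊆ u) ∧ ∀ x, {v ∈ V | x ∈ v}.encard ≤ d + 1

/-- There is a finite-dimensional compact metrizable space with strong computable type which is
homeomorphic to one of its proper subsets. -/
theorem result : ∃ (X : Type) (_ : TopologicalSpace X), CompactSpace X ∧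
    TopologicalSpace.MetrizableSpace X ∧ (∃ d, CoveringDimLE X d) ∧ StrongComputableType X ∧
    ∃ X' : Set X, X' ≠ Set.univ ∧ Nonempty (X ≃ₜ X') := by
  refine ⟨Q204.TY.X, inferInstance, inferInstance, metrizable_X, ⟨3, dim_le⟩, ?_, proper_copy⟩
  rintro O Y ⟨h⟩ hY
  refine ⟨hY, ?_⟩
  have hf : Continuous (fun x => (h x : Cube)) := continuous_subtype_val.comp h.continuous
  have hinj : Function.Injective (fun x => (h x : Cube)) :=
    Subtype.val_injective.comp h.injective
  have hr : Set.range (fun x => (h x : Cube)) = Y := by
    ext y
    constructor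
    · rintro ⟨x, rfl⟩
      exact (h x).2
    · intro hy
      exact ⟨h.symm ⟨y, hy⟩, by simp⟩
  have h1 := Q204.TY.main ballEB hf hinj (O := O)
  rw [hr] at h1
  exact h1 hY

end Pool.Agent.Results.MP_975a4b_lc.FiniteDimProperCopy
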